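import Pool.Agent.H.MP_f98a08_co.C

set_option autoImplicit false

namespace Pool.Agent.Results.MP_f98a08_co.Holds

open Finset Equiv Classical

/-- Number of descents. -/
noncomputable def des {n : ℕ} (π : Perm (Fin n)) : ℕ :=
  (univ.filter (fun k : Fin n => ∃ l : Fin n, l.val = k.val + 1 ∧ π l < π k)).card

/-- Separable: no occurrence of 2413 and no occurrence of 3142. -/
def Sep {n : ℕ} (π : Perm (Fin n)) : Prop := ∀ i j k l : Fin n, i < j → j < k → k < l →
  ¬(π k < π i ∧ π i < π l ∧ π l < π j) ∧ ¬(π j < π l ∧ π l < π i ∧ π i < π k)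

/-- The defining identity of the two-variable coefficients. -/
def IsG (n : ℕ) (γ : ℕ → ℕ → ℚ) : Prop := ∀ s t : ℚ, ∑ σ : Perm (Fin n), s ^ des σ⁻¹ * t ^ des σ =
  ∑ i ∈ range n, ∑ j ∈ range (n - 2 * i), γ i j * (s * t) ^ i * (1 + s * t) ^ j * (s + t) ^ (n - 1 - j - 2 * i)

/-- The defining identity of the coefficients for separable permutations. -/
def IsS (n : ℕ) (γ : ℕ → ℚ) : Prop := ∀ t : ℚ, ∑ π ∈ univ.filter (fun π : Perm (Fin n) => Sep π), t ^ des π =
  ∑ k ∈ range ((n - 1) / 2 + 1), γ k * t ^ k * (1 + t) ^ (n - 1 - 2 * k)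

open Pool.Agent.H.MP_f98a08_co in
lemma sep_sum (n : ℕ) (t : ℚ) : ∑ π ∈ univ.filter (fun π : Perm (Fin (n + 1)) => Sep π), t ^ des π = SA 1 t n := by
  rw [SA, PP, filter_image, sum_image fun a _ b _ h => ex_inj _ h]
  refine sum_congr (filter_congr fun π _ => ⟨fun h i j k l a b c d => ?_, fun h i j k l a b c => ?_⟩) fun π _ => ?_
  · have := h ⟨i, by omega⟩ ⟨j, by omega⟩ ⟨k, by omega⟩ ⟨l, d⟩ a b c
    simpa only [ex, show i < n + 1 by omega, show j < n + 1 by omega, show k < n + 1 by omega, d, dif_pos,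
      Fin.lt_def] using this
  · have := h i j k l a b c l.2
    simpa only [ex, Fin.is_lt, dif_pos, Fin.lt_def] using this
  · rw [show des π = Pool.Agent.H.MP_436b38_co.des π from rfl, Pool.Agent.H.MP_436b38_co.des_eq, wt,
      ← prod_pow_eq_pow_sum, ← Fin.prod_univ_eq_prod_range (fun i => if ex π (i + 1) < ex π i then t else 1)]
    refine prod_congr rfl fun i _ => ?_
    have : π i.succ < π i.castSucc ↔ ex π (i + 1) < ex π i := by
      simp only [ex, show (i : ℕ) + 1 < n + 1 by omega, show (i : ℕ) < n + 1 by omega, dif_pos, Fin.lt_def]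
      rfl
    simp only [this]
    split_ifs <;> simp

theorem result (n : ℕ) (hn : 1 ≤ n) : (∃ γ γS, IsG n γ ∧ IsS n γS) ∧
    ∀ γ γS, IsG n γ → IsS n γS → ∀ k ≤ (n - 1) / 2, γS k ≤ γ k (n - 1 - 2 * k) := by
  obtain ⟨n, rfl⟩ : ∃ m, n = m + 1 := ⟨n - 1, by omega⟩
  obtain ⟨γ, h1, h2⟩ := Pool.Agent.H.MP_f98a08_co.two n
  have h3 : IsS (n + 1) (Pool.Agent.H.MP_f98a08_co.T (n + 1) 1) := fun t =>
    (sep_sum n t).trans (Pool.Agent.H.MP_f98a08_co.one n t)
  refine ⟨⟨γ, _, h2, h3⟩, fun γ' γS g1 g2 k hk => ?_⟩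
  have a1 := Pool.Agent.H.MP_f98a08_co.uniq n (fun k => γS k - Pool.Agent.H.MP_f98a08_co.T (n + 1) 1 k) (fun t => by
    simp only [sub_mul, sum_sub_distrib]
    exact sub_eq_zero.2 ((g2 _).symm.trans (h3 _))) k hk
  have a2 := Pool.Agent.H.MP_f98a08_co.uniq n (fun k => γ' k (n - 2 * k) - γ k (n - 2 * k)) (fun t => by
    simp only [sub_mul, sum_sub_distrib]
    rw [← Pool.Agent.H.MP_f98a08_co.slice, ← Pool.Agent.H.MP_f98a08_co.slice]
    exact sub_eq_zero.2 ((g1 _ _).symm.trans (h2 _ _))) k hk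
  have a3 := h1 k
  simp only [Nat.add_sub_cancel] at *
  linarith

end Pool.Agent.Results.MP_f98a08_co.Holds
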